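import Pool.Agent.Helper3.NFR.Defs
import Pool.Agent.Helper38.ZS.Defs

/-!
# Beck-Fiala without logarithm: definitions

Rows with few live elements get a smaller tolerance (by rounding the dual vector), persistent rows
get exponents which sum over the later levels.
-/

namespace Pool.Agent.Helper56.BF

open Finset
open scoped Classical

noncomputable section

/-- cost of a row at scale one; `κ` is the quotient of the stiffness and the tolerance -/
def rc (κ x : ℝ) : ℝ :=
  if x < 1 / κ then x ^ 2 else if x < κ ^ 40 then x / κ ^ 2 else x ^ (19 / 20 : ℝ)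

variable {V R : Type} [Fintype V] [Fintype R]

/-- number of elements of the row `S` of rank at least `j` -/
def nl (a : V → Finset R) (k : V → ℕ) (j : ℕ) (S : R) : ℕ :=
  #(univ.filter (fun v => S ∈ a v ∧ j ≤ k v))

/-- the exponent of a row with `n j` live elements at level `j` -/
def ee (J N : ℕ) (t : ℝ) (n : ℕ → ℝ) (i : ℕ) : ℝ :=
  ∑ j ∈ range N, if i + J ≤ j then min 1 (2 ^ (j - i - J) * n j / t) else 0

/-- stiffness of the row `S` at level `i` -/
def lamb (a : V → Finset R) (t : ℕ) (l0 : ℝ) (J N : ℕ) (k : V → ℕ) (i : ℕ) (S : R) : ℝ :=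
  l0 * (2 : ℝ) ^ (-ee J N t (fun j => (nl a k j S : ℝ)) i)

/-- the rows with few live elements: `κ = 1` or the number of live elements times `κ ^ 50` is at
most the square of the stiffness -/
def Few (a : V → Finset R) (lam κ : R → ℝ) (T E : Finset V) : Prop :=
  ∀ S, 1 ≤ κ S ∧ (κ S = 1 ∨
    (#((T ∪ E).filter (fun v => S ∈ a v)) : ℝ) * κ S ^ 50 ≤ lam S ^ 2)

end

end Pool.Agent.Helper56.BF
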