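import Pool.Agent.Helper56.BF.Defs
import Pool.Agent.Helper3.NFR.Stmts
import Pool.Agent.Helper38.ZS.Stmts

/-!
# Beck-Fiala without logarithm: statements of the modules
-/

namespace Pool.Agent.Helper56.BF

open Finset
open scoped Classical
open Pool.Agent.Helper3.NFR (ph ps fn ZZ Happy sw EE c0)
open Pool.Agent.Helper38.ZS (IsPr ap nu l1 TT DD Link)

noncomputable section

/-- 1a. a bad vector with a good core has a bad piece (copy of ZS module 4) -/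
def ST_PIECE2 : Prop :=
  ∀ β A : ℝ, 0 < β → β ≤ 1 → 1 ≤ A → ∃ C1 : ℝ, 1 ≤ C1 ∧ ∀ ε : ℝ, 0 < ε → ε ≤ 1 →
    ∃ γ κ C : ℝ, 0 < γ ∧ γ ≤ 1 / 2 ∧ 0 < κ ∧ κ ≤ 1 ∧ 1 ≤ C ∧
    ∀ (L : ℝ) (ι : Type) [Fintype ι] (P : ι → ι → ℝ) (V : Finset ι) (g ξ : ι → ℝ) (m0 : ℝ),
      1 ≤ L → IsPr P → ap P g = g → (∀ i ∈ V, |ξ i| ≤ 1) →
      m0 = ∑ i ∈ V, |TT (g i)| → 0 < m0 → β / 2 * m0 < ∑ i ∈ V, ξ i * TT (g i) →
      nu g (V.filter (fun i => γ ≤ |g i|)) ≤ A / γ * m0 →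
      nu g (Vᶜ.filter (fun i => γ ≤ |g i|)) ≤ 1 / L * m0 →
      ∑ i ∈ univ.filter (fun i => |g i| < γ), g i ^ 2 ≤ A * Real.sqrt γ * m0 →
      (#(V.filter (fun i => 1 / 2 ≤ |g i|)) : ℝ) ≤ A * m0 →
      ∃ (Z : Finset ι) (m : ℝ), m = ∑ i ∈ Z ∩ V, |TT (g i)| ∧ 0 < m ∧
        β / 4 * m < ∑ i ∈ Z ∩ V, ξ i * TT (g i) ∧ (∀ i ∈ Z, γ ≤ |g i|) ∧ Link P κ Z g ∧
        nu g Z ≤ C * m ∧ nu g (Z \ V) ≤ C / L * m ∧ DD P g Z ≤ ε * m ∧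
        (#((Z ∩ V).filter (fun i => 1 / 2 ≤ |g i|)) : ℝ) ≤ C1 * m

/-- 1b. signing of all vectors with a good core (copy of ZS module 18) -/
def ST_SIGN2 : Prop :=
  ∀ β A : ℝ, 0 < β → β ≤ 1 → 1 ≤ A → ∃ γ η L : ℝ, 0 < γ ∧ γ ≤ 1 / 2 ∧ 0 < η ∧ 1 ≤ L ∧
    ∀ (ι : Type) [Fintype ι] (P : ι → ι → ℝ) (V : Finset ι), IsPr P → (∀ i ∈ V, P i i ≤ η) →
      ∃ ξ : ι → ℝ, (∀ i, ξ i = 1 ∨ ξ i = -1) ∧
        ∀ (g : ι → ℝ) (m0 : ℝ), ap P g = g → m0 = ∑ i ∈ V, |TT (g i)| → 0 < m0 →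
          nu g (V.filter (fun i => γ ≤ |g i|)) ≤ A / γ * m0 →
          nu g (Vᶜ.filter (fun i => γ ≤ |g i|)) ≤ 1 / L * m0 →
          ∑ i ∈ univ.filter (fun i => |g i| < γ), g i ^ 2 ≤ A * Real.sqrt γ * m0 →
          (#(V.filter (fun i => 1 / 2 ≤ |g i|)) : ℝ) ≤ A * m0 →
          ∑ i ∈ V, ξ i * TT (g i) ≤ β / 2 * m0

/-- 2. level selection with rows (variant of ZS module 1) -/
def ST_LEVEL2 : Prop :=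
  ∃ C0 : ℝ, 1 ≤ C0 ∧ ∀ (ι R : Type) [Fintype ι] [Fintype R] (V T : Finset ι) (f ξ : ι → ℝ)
    (r : R → ℝ → ℝ) (M : R → ℝ) (β L : ℝ),
    0 < β → β ≤ 1 → 1 ≤ L → (∀ i ∈ V, |ξ i| ≤ 1) → (∀ S s, 0 ≤ r S s) →
    (∀ S, ∀ F : Finset ℤ, ∑ l ∈ F, (2 : ℝ) ^ l * r S ((2 : ℝ) ^ (-l)) ≤ M S) →
    β * l1 f V + L * l1 f T + L * ∑ S, M S < ∑ i ∈ V, ξ i * f i →
    ∃ s : ℝ, 0 < s ∧ 0 < ∑ i ∈ V, |TT (s * f i)| ∧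
      β / 2 * ∑ i ∈ V, |TT (s * f i)| < ∑ i ∈ V, ξ i * TT (s * f i) ∧
      (∀ h : ℤ, (2 : ℝ) ^ h * (β * (#(V.filter (fun i => (2 : ℝ) ^ (h + 1) ≤ |s * f i|)) : ℝ)
          + L * (#(T.filter (fun i => (2 : ℝ) ^ (h + 1) ≤ |s * f i|)) : ℝ))
        ≤ C0 * (2 : ℝ) ^ (|(h : ℝ)| / 40) * ∑ i ∈ V, |TT (s * f i)|) ∧
      L * ∑ S, r S s ≤ C0 * ∑ i ∈ V, |TT (s * f i)|

/-- 3. the cost of one row over all scales -/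
def ST_COST : Prop :=
  ∃ C : ℝ, 1 ≤ C ∧ ∀ κ X : ℝ, 1 ≤ κ → 0 ≤ X → ∀ F : Finset ℤ,
    ∑ l ∈ F, (2 : ℝ) ^ l * rc κ ((2 : ℝ) ^ (-l) * X) ≤ C * (X / κ)

/-- 4. independent rounding -/
def ST_AVG : Prop :=
  ∀ (R : Type) [Fintype R] (p : R → ℝ), (∀ S, 0 ≤ p S ∧ p S ≤ 1) →
    ∃ w : Finset R → ℝ, (∀ A, 0 ≤ w A) ∧ ∑ A, w A = 1 ∧
      (∀ S, ∑ A, w A * (if S ∈ A then (1 : ℝ) else 0) = p S) ∧
      ∀ c : R → ℝ, ∑ A, w A * (∑ S, c S * ((if S ∈ A then (1 : ℝ) else 0) - p S)) ^ 2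
        ≤ ∑ S, c S ^ 2 * p S

/-- 5. signing for functionals with small tolerance of the rows with few elements -/
def ST_SIGNF2 : Prop :=
  ∀ β : ℝ, 0 < β → β ≤ 1 → ∃ η L : ℝ, 0 < η ∧ η ≤ 1 ∧ 1 ≤ L ∧
    ∀ (V R : Type) [Fintype V] [Fintype R] (a : V → Finset R) (lam κ : R → ℝ) (q : V → ℝ)
      (T E : Finset V), Disjoint T E → (∀ S, 0 < lam S) → (∀ v, 0 ≤ q v) → (∀ v, q v ≤ 1) →
      Few a lam κ T E →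
      (∀ u ∈ E, ∀ y : R → ℝ, (fn a u y) ^ 2 ≤
        η * (∑ S, (lam S * y S) ^ 2 + ∑ v ∈ T, (q v * fn a v y) ^ 2)) →
      ∃ ξ : V → ℝ, (∀ v, ξ v = 1 ∨ ξ v = -1) ∧ ∀ y : R → ℝ, ∑ u ∈ E, ξ u * fn a u y ≤
        β * ∑ u ∈ E, |fn a u y| +
          L * (∑ S, lam S / κ S * |y S| + ∑ v ∈ T, q v * |fn a v y|)

/-- 6a. cost of one row in the domination, integrated over all scales. The function `dc κ x` is the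
expected cost of the row after rounding -/
def dc (κ x : ℝ) : ℝ :=
  if x < 1 / κ ∨ κ ^ 40 ≤ x then 2 * ps x else 2 * (x / κ ^ 40) * ps (κ ^ 40) + 3 * (x / κ ^ 10)

def ST_DCOST : Prop :=
  ∃ C : ℝ, 1 ≤ C ∧ ∀ κ X : ℝ, 1 ≤ κ → 0 ≤ X →
    MeasureTheory.IntegrableOn (fun h : ℝ => dc κ (X / h)) (Set.Ioi 0) ∧
    ∫ h in Set.Ioi (0 : ℝ), dc κ (X / h) ≤ C * (X / κ)

/-- 6. domination with small tolerance of the rows with few elements -/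
def ST_DOM2 : Prop :=
  ∃ C : ℝ, 1 ≤ C ∧ ∀ (V R : Type) [Fintype V] [Fintype R] (a : V → Finset R) (lam κ : R → ℝ)
    (s : V → ℝ) (T E : Finset V) (α b : ℝ), Disjoint T E → 0 < α → α ≤ 1 → 0 < b → b ≤ 1 →
    (∀ S, 0 < lam S) → (∀ v, 0 ≤ s v) → (∀ v, s v ≤ 1) → Few a lam κ T E →
    (∀ y : R → ℝ, α * ∑ u ∈ E, ph (fn a u y) ≤
      2 * ∑ S, ps (lam S * y S) + b * ∑ v ∈ T, ph (s v * fn a v y)) →
    ∀ y : R → ℝ, α * ∑ u ∈ E, |fn a u y| ≤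
      4 * b * ∑ v ∈ T, s v * |fn a v y| + C * ∑ S, lam S / κ S * |y S|

/-- 7a. lower bound of the partition function, real exponents (copy of NFR module 7) -/
def ST_LOW2 : Prop :=
  ∃ C : ℝ, 0 < C ∧ ∀ (V R : Type) [Fintype V] [Fintype R] (a : V → Finset R) (b c l0 : ℝ) (t : ℕ)
    (e : R → ℝ) (s : V → ℝ) (T E : Finset V), 0 ≤ b → 0 ≤ c → 0 < l0 → (∀ v, (a v).card ≤ t) →
    (∀ v, 0 ≤ s v) → (∀ v, s v ≤ 1) → (∀ S, 0 ≤ e S) →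
    - (∑ S, e S) * Real.log 2 - C * b * t / l0 ^ 2 * T.card ≤
      Real.log (ZZ a b c (fun S => l0 * (2 : ℝ) ^ (-e S)) s T E)

/-- 7. the rank function (variant of NFR module 9) -/
def ST_RANK2 : Prop :=
  ∀ b : ℝ, 0 < b → b ≤ 1 → ∃ (C : ℝ) (J : ℕ), 1 ≤ C ∧ ∀ (V R : Type) [Fintype V] [Fintype R]
    (a : V → Finset R) (t : ℕ), 1 ≤ t → (∀ v, (a v).card ≤ t) →
    ∃ (N : ℕ) (k : V → ℕ), (∀ v, k v < N) ∧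
      ∀ i, ∀ u ∈ EE k i, Happy a b c0 (1 / 100) (lamb a t (C * Real.sqrt t) J N k i) (sw k i)
        (Pool.Agent.Helper3.NFR.TT k i) (EE k i) u

/-- 8. one level (variant of NFR module 12) -/
def ST_STEP2 : Prop :=
  ∃ b C : ℝ, 0 < b ∧ b ≤ 1 ∧ 0 < C ∧
    ∀ (V R : Type) [Fintype V] [Fintype R] (a : V → Finset R) (lam κ : R → ℝ) (s : V → ℝ)
      (T E : Finset V), Disjoint T E → (∀ S, 0 < lam S) → (∀ v, 0 ≤ s v) → (∀ v, s v ≤ 1) →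
      Few a lam κ T E →
      (∀ u ∈ E, Happy a b c0 (1 / 100) lam s T E u) →
      ∀ z : V → ℝ, (∀ v, |z v| ≤ 1) → ∃ x ζ : V → ℝ, (∀ v, x v = 1 ∨ x v = -1) ∧
        (∀ v, |ζ v| ≤ s v / 4) ∧
        ∀ S, |∑ u ∈ E.filter (fun u => S ∈ a u), (x u - z u) +
          ∑ v ∈ T.filter (fun v => S ∈ a v), ζ v| ≤ C * (lam S / κ S)

/-- 9. the sum over the levels for one row -/
def ST_SUM : Prop :=
  ∀ J : ℕ, ∃ C : ℝ, ∀ (N : ℕ) (t : ℝ) (n : ℕ → ℝ), 1 ≤ t → (∀ i, 0 ≤ n i) → Antitone n →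
    ∑ i ∈ range N, (2 : ℝ) ^ (-(24 / 25 * ee J N t n i)) * (min 1 (n i / t)) ^ (1 / 50 : ℝ) ≤ C

/-- 10. the Beck-Fiala theorem with the bound `C * sqrt t` -/
def ST_FIN : Prop :=
  ∃ C : ℝ, ∀ (V R : Type) [Fintype V] [Fintype R] (a : V → Finset R) (t : ℕ), 1 ≤ t →
    (∀ v, (a v).card ≤ t) → ∃ x : V → ℝ, (∀ v, x v = 1 ∨ x v = -1) ∧
      ∀ S, |∑ v ∈ Finset.univ.filter (fun v => S ∈ a v), x v| ≤ C * Real.sqrt t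

end

end Pool.Agent.Helper56.BF
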